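import Pool.Agent.Helper672.SIK.Bridge

/-!
# All complete Boolean algebras are injective if and only if the axiom of choice holds

We answer Bell's question: ZF (indeed Zermelo set theory, without Foundation and Replacement)
proves that the Sikorski extension theorem is equivalent to the axiom of choice. By the
completeness theorem it is enough to prove the equivalence in an arbitrary, possibly nonstandard,
model.

Outline of the proof that injectivity implies choice.
* Given sets `I k`, let `J` be their disjoint union, `C` the algebra of regular open sets of the
  poset of finite partial functions from `J` to two values, and `φ k` the automorphism of `C` that
  flips all values on `I k`. The algebra `B` of all elements of `C` fixed by all `φ k` is complete,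
  so by injectivity there is a retraction `g` from `C` to `B`. For `j` in `I k` the element
  `ρ = g (τ j) ∆ τ j` depends only on `k` (as `τ i ∆ τ j` is in `B` for `i`, `j` in `I k`), and
  `φ k` maps `ρ` to its complement. If two conditions `p`, `q` decide `ρ` and agree outside `I k`
  then their domains meet inside `I k` (else `p` is compatible with both `q` and `φ k q`, and
  these decide `ρ` differently). So the negation of a deciding condition of the least size `n`
  meets all the sets `q ∪ φ k q` with `q` deciding and of size at most `n`; there are only finitely
  many minimal sets of size at most `n` that do so, and the points of `I k` in their domains form a
  finite nonempty set. This gives multiple choice.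
* Injectivity of the two element algebra gives ultrafilters, hence a linear order of every set.
* Multiple choice and linear orders give choice.
-/

namespace Pool.Agent.Results.MP_238801_lc.InjectivityIffChoice

open Pool.Agent.Helper672.Plain

universe u

/-- In every model of Zermelo set theory (in particular in every model of ZF) all complete Boolean
algebras are injective if and only if the axiom of choice holds. -/
theorem result (M : Type u) [LSet.Structure M] [Zermelo M] : CompleteInjective M ↔ AC M :=
  ⟨CompleteInjective.ac, AC.completeInjective⟩

end Pool.Agent.Results.MP_238801_lc.InjectivityIffChoice
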